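import Pool.Agent.R318.LP.H

/-! # Joint moments of all the coefficients of the `L`-polynomials for almost all Jacobians of curves `y ^ 2 = f(x)` of any
genus, with coefficients in sparse families given by digits

Let `f` be a polynomial of degree `n = 2 g + 1` with integer coefficients `a`. For a prime `p ≠ 2` such that `f` modulo `p` is
squarefree of degree `n` let `N_k` be the number of the solutions `(x, y)` of `y ^ 2 = f(x)` in the field with `p ^ k`
elements, and `t_k = (N_k - p ^ k) / √(p ^ k)`. The normalised `L`-polynomial of the Jacobian at `p` is
`exp(∑ t_k T ^ k / k) = ∑ a_i T ^ i`. The coefficients `a_i` are `coefL a p i`; they are computed from the `t_k` by Newton's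
identities (`cf`).

The coefficients of `f` are `c j + κ j v j`, where `v j` are independent random integers with `k` independent digits in
base `b`, whose distributions are arbitrary, except that two independent copies of a digit differ with a probability of at
least `η`. For instance the `i`-th digit of `v j` may be any element of a set `D j i` of at least two digits, with equal
probabilities (the integers without some digit, all the integers below `b ^ k`).

Theorem: with probability at least `1 - C log X / X`, for EVERY `x ≥ X` with `x ^ W ≤ b ^ k` almost all primes up to `x`
are good, and the averages of all products of powers of the `a_i`, `i ≥ 1`, of weight less than `2 ⌊(n + 1) / 2⌋ = 2 g + 2`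
over the good primes up to `x` are close to their limits. The exponents are given by `e : ℕ →₀ ℕ`, where `e j` is the
exponent of `a_(j + 1)`, and the weight `wgt e` is the sum of the `e j * (j + 1)`. The limit `ML e` is the expectation of the
same product if the `t_k` are replaced by independent normal variables of variance `k` and mean value `1` for `k` even, `0`
for `k` odd. These are the moments of the coefficients of the characteristic polynomial for `USp(2 g)`. Part 1 contains the
moments of `a_1`, the mean values of all `a_i`, which are `1` for `i` even and `0` for `i` odd, and the mean values of all
products `a_i a_k`, `i ≤ k`, which are `⌊i / 2⌋ + 1` for `i + k` even and `0` for `i + k` odd.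

Proof: modulo `p`, the values of a random polynomial with `n + 1` coefficients at points of the line are independent, as
long as the sum of the degrees of the points is at most `n + 1`. So the sums of the quadratic characters over the points of
degree `k`, for the different `k`, have the joint moments of sums of independent variables, up to the weight `n + 1`. The
elements of the field with `p ^ k` elements that are in the subfield of index two give the mean value of `t_k`, `k` even; the
other proper subfields are negligible. For the polynomials that are not squarefree of degree `n` the terms are bounded by
Weil's bound, except for the constants times squares, whose number is very small. The mean values for the limits are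
computed with an integration by parts (Stein). The second moment of the sum over the primes is computed by the
equidistribution of the families modulo products of two primes; all `x` are treated with a geometric grid.

Definitions used: `pointsK`, `tK`, `coefL`, `CloseL` (file `E.lean`), `cf`, `wgt`, `ML`, `QQ`, `AQ`, `ES` (file `D.lean`),
`gg` (file `C.lean`), `ev` (file `B.lean`) in `Pool.Agent.R318.LP`, and `GoodP`, `goods`, `PrV`, `Dist`, `arrays`, `wt`,
`dval`, `G` in `Pool.Agent.R318.ST` (files `Fin1.lean`, `Dig.lean`, `Mom.lean`).

Library: helper459 (second moments for families given by digits), helper435 (Weil's bound), helper730 (prime number theorem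
in progressions). -/

set_option autoImplicit false

namespace Pool.Agent.Results.MP_753a9c_nt.AllCoefficients

open Pool.Agent.R318.ST Pool.Agent.R318.LP

/-- **Theorem.** (1) The limits `ML` for the powers of `a_1`, for `a_(i + 1)` and for `a_(i + 1) a_(k + 1)`.

(2) Let `b ≥ 2` and `η > 0`. There is `W` such that for all `n ≥ 1`, all nonzero integers `κ j`, `0 ≤ j ≤ n`, and all
`ε > 0` there are `C` and `X₀` with the following property. For all `k`, all `X ≥ X₀`, all integers `c j` and all
distributions `u j` of `k` digits in base `b` such that two independent copies of a digit differ with probability at least
`η` (`Dist`), the polynomial `f` with the coefficients `c j + κ j v j`, where `v j` are independent integers with independent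
digits with the distributions `u j`, satisfies, with an exceptional probability of at most `C log X / X`: for EVERY `x ≥ X`
with `x ^ W ≤ b ^ k`, all the primes up to `x` but a proportion of at most `ε` are good, and for all exponents `e` of weight
less than `2 ⌊(n + 1) / 2⌋` the average of the product of the `a_(i + 1) ^ e i` over the good primes up to `x` is `ML e` up
to `ε` (`CloseL`). -/
theorem result :
    ((∀ m : ℕ, ML (Finsupp.single 0 m) = G m) ∧
      (∀ i : ℕ, ML (Finsupp.single i 1) = if Even (i + 1) then 1 else 0) ∧
      (∀ i k : ℕ, ML (Finsupp.single i 1 + Finsupp.single k 1) =
        if Even (i + k) then (((min i k + 1) / 2 : ℕ) : ℝ) + 1 else 0)) ∧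
    ∀ (b : ℕ), 2 ≤ b → ∀ (η : ℝ), 0 < η → ∃ W : ℕ, 1 ≤ W ∧
    ∀ n : ℕ, 1 ≤ n → ∀ κ : Fin (n + 1) → ℤ, (∀ j, κ j ≠ 0) → ∀ ε : ℝ, 0 < ε →
    ∃ (C : ℝ) (X₀ : ℕ), ∀ k X : ℕ, X₀ ≤ X → ∀ (c : Fin (n + 1) → ℤ) (u : Fin (n + 1) → ℕ → ℕ → ℝ),
    (∀ j, Dist b k η (u j)) →
    PrV b k u (fun g => ¬ CloseL n ε X W (b ^ k) (fun j => c j + κ j * (dval b (g j) : ℕ))) ≤ C * (Real.log X / X) :=
  ⟨⟨ML_first, ML_mean, ML_cov⟩, fun b hb η hη => main b hb η hη⟩

end Pool.Agent.Results.MP_753a9c_nt.AllCoefficients
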