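import Pool.Agent.R314.PR.Main

/-!
# The Sato-Tate law for almost all products of abelian varieties

Let `K` be a number field (`ℚ` in the problem).  For an abelian variety `A / K` the classes of the
Frobenius elements in the space of conjugacy classes of the Sato-Tate group of `A` (or of `USp(2g)`) are a
map from the primes of `K` to a compact space; its values at the finitely many primes of bad reduction are
arbitrary.  The normalized Euler factor of a product is the product of those of the factors, so the
coefficients `a_i(A)(p)` of a product `A = A_1 × ... × A_n` are continuous functions of the `n` classes.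

Let `A_k`, `k ∈ κ`, be `r` abelian varieties over `K` (for instance elliptic curves without complex
multiplication over `ℚ` that are pairwise not isogenous over the algebraic closure) such that the classes
of any two of them are jointly equidistributed.  For such elliptic curves this is known (Harris;
Barnet-Lamb, Geraghty, Harris, Taylor), and Q1 is open for all products of three of them.

**Theorem.**  Given `n`, `ε` and a compact set of continuous test functions (for instance
finitely many functions of the `a_i(A)(p)`), there is a constant `C` such that for every such family, at every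
large scale `N`, all but `C r ^ (n - 1)` of the `r ^ n` products `A_{t 1} × ... × A_{t n}` satisfy the
Sato-Tate law up to `ε`.  Moreover this holds jointly with any other sequence `x` (the classes of any
abelian variety `B / K`, for which nothing is assumed): the classes of `B` and of `A_{t 1}, ..., A_{t n}`
are independent up to `ε`, and if the classes of `B` are equidistributed, the Sato-Tate law holds up to
`ε` for `B × A_{t 1} × ... × A_{t n}`, for all but `C r ^ (n - 1)` of the tuples `t`.  The constant does not
depend on `K`, on `B` or on the family, and no analytic continuation of `L`-functions of products of three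
or more factors is used.
-/

set_option autoImplicit false

namespace Pool.Agent.Results.MP_753a9c_nt.AlmostAllProducts

open NumberField IsDedekindDomain Filter Topology MeasureTheory

/-- The average of `φ` over the primes of `K` of norm at most `N`. -/
noncomputable def avg (K : Type) [Field K] [NumberField K] (φ : HeightOneSpectrum (𝓞 K) → ℝ)
    (N : ℕ) : ℝ :=
  (∑ᶠ v : {v : HeightOneSpectrum (𝓞 K) // Ideal.absNorm v.asIdeal ≤ N}, φ v.1) /
    (Nat.card {v : HeightOneSpectrum (𝓞 K) // Ideal.absNorm v.asIdeal ≤ N} : ℝ)

/-- The sequence `x` is equidistributed for `μ`. -/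
def Equidistributed (K : Type) [Field K] [NumberField K] {X : Type} [TopologicalSpace X]
    [MeasurableSpace X] (x : HeightOneSpectrum (𝓞 K) → X) (μ : Measure X) : Prop :=
  ∀ f : C(X, ℝ), Tendsto (avg K fun v => f (x v)) atTop (𝓝 (∫ a, f a ∂μ))

/-- The sequences `y` and `z` are jointly equidistributed for the product of `ν` and `ν'`. -/
def JointlyEquidistributed (K : Type) [Field K] [NumberField K] {Y : Type} [TopologicalSpace Y]
    [MeasurableSpace Y] (y z : HeightOneSpectrum (𝓞 K) → Y) (ν ν' : Measure Y) : Prop :=
  ∀ f : C(Y × Y, ℝ), Tendsto (avg K fun v => f (y v, z v)) atTop (𝓝 (∫ p, f p ∂(ν.prod ν')))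

open Classical in
/-- **The Sato-Tate law up to `ε` for almost all products.** -/
theorem result (X Y : Type) [TopologicalSpace X] [CompactSpace X] [T2Space X]
    [TopologicalSpace Y] [CompactSpace Y] [T2Space Y] [SecondCountableTopology Y]
    [MeasurableSpace Y] [BorelSpace Y] (n : ℕ) (𝓕 : Set C(X × (Fin n → Y), ℝ))
    (h𝓕 : IsCompact 𝓕) (ε : ℝ) (hε : 0 < ε) : ∃ C : ℕ,
    ∀ (K : Type) [Field K] [NumberField K] (κ : Type) [Fintype κ]
      (ν : κ → Measure Y) [∀ k, IsProbabilityMeasure (ν k)]
      (y : κ → HeightOneSpectrum (𝓞 K) → Y),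
      (∀ k l, k ≠ l → JointlyEquidistributed K (y k) (y l) (ν k) (ν l)) →
      (∀ᶠ N : ℕ in atTop, ∀ x : HeightOneSpectrum (𝓞 K) → X,
        (Finset.univ.filter fun t : Fin n → κ => ∃ F ∈ 𝓕,
          ε < |avg K (fun v => F (x v, fun i => y (t i) v)) N -
            avg K (fun v => ∫ z, F (x v, z) ∂(Measure.pi fun i => ν (t i))) N|).card ≤
          C * Fintype.card κ ^ (n - 1)) ∧
      (∀ [MeasurableSpace X] [BorelSpace X] (μ : Measure X) [IsProbabilityMeasure μ]
        (x : HeightOneSpectrum (𝓞 K) → X), Equidistributed K x μ →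
        ∀ᶠ N : ℕ in atTop,
        (Finset.univ.filter fun t : Fin n → κ => ∃ F ∈ 𝓕,
          ε < |avg K (fun v => F (x v, fun i => y (t i) v)) N -
            ∫ a, ∫ z, F (a, z) ∂(Measure.pi fun i => ν (t i)) ∂μ|).card ≤
          C * Fintype.card κ ^ (n - 1)) := by
  obtain ⟨C, hC⟩ := Pool.Agent.R314.PR.main 𝓕 h𝓕 (show 0 < ε / 2 by positivity)
  refine ⟨C, fun K _ _ κ _ ν _ y hy => ?_⟩
  have h1 := hC K κ ν y hy
  have hdev : ∀ (N : ℕ) (F : C(X × (Fin n → Y), ℝ)) (x : HeightOneSpectrum (𝓞 K) → X)
      (t : Fin n → κ), avg K (fun v => F (x v, fun i => y (t i) v)) N -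
        avg K (fun v => ∫ z, F (x v, z) ∂(Measure.pi fun i => ν (t i))) N =
      Pool.Agent.R314.PR.dev (Pool.Agent.R314.PR.below K N) F ν y x t := by
    intro N F x t
    unfold Pool.Agent.R314.PR.dev
    rw [← Pool.Agent.R314.PR.avg_eq, ← Pool.Agent.R314.PR.avg_eq]
    rfl
  refine ⟨?_, ?_⟩
  · filter_upwards [h1] with N h1 x
    refine (Finset.card_le_card fun t ht => ?_).trans (h1 x)
    obtain ⟨F, hF, hlt⟩ := (Finset.mem_filter.1 ht).2
    rw [hdev] at hlt
    exact Finset.mem_filter.2 ⟨Finset.mem_univ _, F, hF, by linarith⟩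
  · intro _ _ μ _ x hx
    filter_upwards [h1, Pool.Agent.R314.PR.ev_slice 𝓕 h𝓕 (show 0 < ε / 2 by positivity) K κ ν μ x hx]
      with N h1 h2
    refine (Finset.card_le_card fun t ht => ?_).trans (h1 x)
    obtain ⟨F, hF, hlt⟩ := (Finset.mem_filter.1 ht).2
    refine Finset.mem_filter.2 ⟨Finset.mem_univ _, F, hF, ?_⟩
    have h3 := h2 F hF t
    rw [← hdev]
    rw [← Pool.Agent.R314.PR.avg_eq K (fun v => ∫ z, F (x v, z) ∂(Measure.pi fun i => ν (t i))) N] at h3
    have h3 : |avg K (fun v => ∫ z, F (x v, z) ∂(Measure.pi fun i => ν (t i))) N -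
        ∫ a, ∫ z, F (a, z) ∂(Measure.pi fun i => ν (t i)) ∂μ| ≤ ε / 2 := h3
    set a := avg K (fun v => F (x v, fun i => y (t i) v)) N
    set b := avg K (fun v => ∫ z, F (x v, z) ∂(Measure.pi fun i => ν (t i))) N
    set c := ∫ a, ∫ z, F (a, z) ∂(Measure.pi fun i => ν (t i)) ∂μ
    have h5 : a - c = (a - b) + (b - c) := by ring
    have h6 := abs_add_le (a - b) (b - c)
    rw [← h5] at h6
    linarith

end Pool.Agent.Results.MP_753a9c_nt.AlmostAllProducts
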