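import Pool.Agent.R318.ST.Fin1

/-! # Moments of the first coefficient for the Jacobians of almost all curves `y ^ ℓ = f(x)` with coefficients in sparse
families given by digits

Let `ℓ` be a prime and let `f` be a polynomial of degree `n` with integer coefficients `a`. For a prime `p ≠ ℓ` such that
`f` modulo `p` is squarefree of degree `n`, let `a1 ℓ a p = (points - p) / √p`, where `points` is the number of the
solutions `(x, y)` of `y ^ ℓ = f(x)` modulo `p`. If `ℓ` does not divide `n`, the smooth projective model of the curve has
one more point, and `a1 ℓ a p` is the coefficient of `T` of the normalised `L`-polynomial of its Jacobian `A`, an abelian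
variety of dimension `(ℓ - 1) (n - 1) / 2`; for `ℓ = 2` these are the hyperelliptic curves with a rational Weierstrass
point at infinity.

The coefficients are `a j = c j + κ j v j`, where `v j` are independent random integers with `k` independent digits in
base `b`, whose distributions are arbitrary, except that two independent copies of a digit differ with a probability of at
least `η`. For instance the `i`-th digit of `v j` may be any element of a set `D j i` of at least two digits, with equal
probabilities (the integers without some digit, all the integers below `b ^ k`).

Theorem: with probability at least `1 - C log X / X`, for EVERY `x ≥ X` with `x ^ W ≤ b ^ k` almost all primes up to `x`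
are good, and the averages of the powers `a1 ^ m` over the good primes up to `x` are close to the moments `cM ℓ m` for all
`m < 2 ⌊(n + 1) / 2⌋`. Here `cM 2 m` is `(m - 1)!!` for even `m` and `0` for odd `m`: these are the moments of the trace
of a random matrix in `USp(2 g)`, `n = 2 g + 1`, for `m ≤ 2 g + 1`.

Proof: modulo `p`, the values of a random polynomial with `n + 1` coefficients at `n + 1` points are independent, so the
moments over all polynomials modulo `p` are those of sums of `m`-wise independent variables; the polynomials with a square
factor are removed with the help of a higher moment; Weil's bound gives that the terms are bounded; the second moment of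
the sum over the primes is computed by the equidistribution of the families modulo products of two primes; all `x` are
treated with a geometric grid.

Definitions used, all in `Pool.Agent.R318.ST` (files `Fin1.lean`, `Dig.lean`, `Mom.lean`): `points`, `a1`, `GoodP`, `goods`,
`cM`, `Close`, `PrV`, `Dist`, `arrays`, `wt`, `dval`, `G`.

Library: helper459 (second moments for families given by digits), helper435 (Weil's bound), helper730 (prime number theorem
in progressions, expansion in characters). -/

set_option autoImplicit false

namespace Pool.Agent.Results.MP_753a9c_nt.CyclicCovers

open Pool.Agent.R318.ST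

/-- **Theorem.** Let `b ≥ 2` and `η > 0`. There is `W` such that for all primes `ℓ`, all `n ≥ 1`, all nonzero integers
`κ j`, `0 ≤ j ≤ n`, and all `ε > 0` there are `C` and `X₀` with the following property. For all `k`, all `X ≥ X₀`, all
integers `c j` and all distributions `u j` of `k` digits in base `b` such that two independent copies of a digit differ with
probability at least `η` (`Dist`), the polynomial `f` with the coefficients `c j + κ j v j`, where `v j` are independent
integers with independent digits with the distributions `u j`, satisfies, with an exceptional probability of at most
`C log X / X`: for EVERY `x ≥ X` with `x ^ W ≤ b ^ k`, all the primes up to `x` but a proportion of at most `ε` are good,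
and for all `1 ≤ m < 2 ⌊(n + 1) / 2⌋` the average of `a1 ^ m` over the good primes up to `x` is `cM ℓ m` up to `ε`. -/
theorem result (b : ℕ) (hb : 2 ≤ b) (η : ℝ) (hη : 0 < η) : ∃ W : ℕ, 1 ≤ W ∧
    ∀ (ℓ n : ℕ), ℓ.Prime → 1 ≤ n → ∀ κ : Fin (n + 1) → ℤ, (∀ j, κ j ≠ 0) → ∀ ε : ℝ, 0 < ε →
    ∃ (C : ℝ) (X₀ : ℕ), ∀ k X : ℕ, X₀ ≤ X → ∀ (c : Fin (n + 1) → ℤ) (u : Fin (n + 1) → ℕ → ℕ → ℝ),
    (∀ j, Dist b k η (u j)) →
    PrV b k u (fun g => ¬ Close ℓ ε X W (b ^ k) (fun j => c j + κ j * (dval b (g j) : ℕ))) ≤ C * (Real.log X / X) :=
  all_exp b hb η hη

end Pool.Agent.Results.MP_753a9c_nt.CyclicCovers
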