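import Pool.Agent.R314.PR.Sign

/-!
# The signs of the Frobenius traces of three elliptic curves

Let `E_1, E_2, E_3` be elliptic curves without complex multiplication over `ℚ` (or over a number field `K`
over which the facts below are known), pairwise not isogenous over the algebraic closure, and let
`x_v, y_v, z_v ∈ [-2, 2]` be their normalized traces of Frobenius at the prime `v` (at the bad primes
any numbers in `[-2, 2]`).  For the abelian threefold `A = E_1 × E_2 × E_3` one has
`a_1(A) = -(x + y + z)`, `a_2(A) = 3 + xy + yz + zx`, `a_3(A) = -(2 (x + y + z) + xyz)`, and the Sato-Tate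
conjecture, which is open for such `A`, predicts that `(x_v, y_v, z_v)` is equidistributed for the product
of the Sato-Tate measures; in particular each of the eight sign patterns should have density `1/8`.

Two facts are known and are taken as hypotheses here:

* `JointLaw`: the joint Sato-Tate law for `(E_1, E_3)` and for `(E_2, E_3)` (Harris; Barnet-Lamb, Geraghty,
  Harris, Taylor);
* `MixedMeans`: the averages of `x_v y_v g(z_v)` tend to `0` for every continuous `g`.  For `g` the
  character of `Sym^c` this is the prime number theorem for the Rankin-Selberg `L`-function of the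
  cuspidal representations `E_1 ⊠ E_2` of `GL_4` (Ramakrishnan) and `Sym^c E_3` (Newton, Thorne).

**Theorem.**  Each of the eight patterns of signs of `(x_v, y_v, z_v)` occurs, at every large scale, for at
least `2.16` percent of the primes.

(The proof gives `(64/π - 17)/156 - ε`.)
-/

set_option autoImplicit false

namespace Pool.Agent.Results.MP_753a9c_nt.SignPatternsThreeCurves

open NumberField IsDedekindDomain Filter Topology

/-- The average of `φ` over the primes of `K` of norm at most `N`. -/
noncomputable def avg (K : Type) [Field K] [NumberField K] (φ : HeightOneSpectrum (𝓞 K) → ℝ)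
    (N : ℕ) : ℝ :=
  (∑ᶠ v : {v : HeightOneSpectrum (𝓞 K) // Ideal.absNorm v.asIdeal ≤ N}, φ v.1) /
    (Nat.card {v : HeightOneSpectrum (𝓞 K) // Ideal.absNorm v.asIdeal ≤ N} : ℝ)

/-- The integral for the Sato-Tate measure. -/
noncomputable def satoTate (f : ℝ → ℝ) : ℝ :=
  ∫ t in (-2 : ℝ)..2, f t * (√(4 - t ^ 2) / (2 * Real.pi))

variable (K : Type) [Field K] [NumberField K]

/-- The joint Sato-Tate law for two sequences. -/
def JointLaw (x z : HeightOneSpectrum (𝓞 K) → ℝ) : Prop :=
  ∀ f g : ℝ → ℝ, Continuous f → Continuous g →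
    Tendsto (avg K fun v => f (x v) * g (z v)) atTop (𝓝 (satoTate f * satoTate g))

/-- The averages of `x y g(z)` tend to `0`. -/
def MixedMeans (x y z : HeightOneSpectrum (𝓞 K) → ℝ) : Prop :=
  ∀ g : ℝ → ℝ, Continuous g → Tendsto (avg K fun v => x v * y v * g (z v)) atTop (𝓝 0)

open Classical in
/-- The proportion of the primes of norm at most `N` for which `x, y, z` have the signs
`a, b, c ∈ {1, -1}`. -/
noncomputable def proportion (x y z : HeightOneSpectrum (𝓞 K) → ℝ) (a b c : ℤˣ) (N : ℕ) : ℝ :=
  avg K (fun v => if 0 < ((a : ℤ) : ℝ) * x v ∧ 0 < ((b : ℤ) : ℝ) * y v ∧ 0 < ((c : ℤ) : ℝ) * z v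
    then 1 else 0) N

/-- **All eight sign patterns have positive lower density.** -/
theorem result (x y z : HeightOneSpectrum (𝓞 K) → ℝ) (hx : ∀ v, |x v| ≤ 2) (hy : ∀ v, |y v| ≤ 2)
    (hxz : JointLaw K x z) (hyz : JointLaw K y z) (h : MixedMeans K x y z) (a b c : ℤˣ) :
    ∀ᶠ N : ℕ in atTop, (0.0216 : ℝ) ≤ proportion K x y z a b c N := by
  have key : ∀ x' y' z' : HeightOneSpectrum (𝓞 K) → ℝ, (∀ v, |x' v| ≤ 2) → (∀ v, |y' v| ≤ 2) →
      Pool.Agent.R314.PR.Pair x' z' → Pool.Agent.R314.PR.Pair y' z' →
      Pool.Agent.R314.PR.Triple x' y' z' →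
      (fun v => ((a : ℤ) : ℝ) * x v) = x' → (fun v => ((b : ℤ) : ℝ) * y v) = y' →
      (fun v => ((c : ℤ) : ℝ) * z v) = z' →
      ∀ᶠ N : ℕ in atTop, (0.0216 : ℝ) ≤ proportion K x y z a b c N := by
    intro x' y' z' h1 h2 h3 h4 h5 e1 e2 e3
    filter_upwards [Pool.Agent.R314.PR.positive h1 h2 h3 h4 h5] with N hN
    subst e1 e2 e3
    have e4 : (0.0216 : ℝ) = 27 / 1250 := by norm_num
    rw [e4]
    exact hN
  have p1 : Pool.Agent.R314.PR.Pair x z := hxz
  have p2 : Pool.Agent.R314.PR.Pair y z := hyz
  have p3 : Pool.Agent.R314.PR.Triple x y z := h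
  have hx' : ∀ v, |-x v| ≤ 2 := fun v => by rw [abs_neg]; exact hx v
  have hy' : ∀ v, |-y v| ≤ 2 := fun v => by rw [abs_neg]; exact hy v
  open Pool.Agent.R314.PR in
  rcases Int.units_eq_one_or a with ha | ha <;> rcases Int.units_eq_one_or b with hb | hb <;>
    rcases Int.units_eq_one_or c with hc | hc
  · exact key x y z hx hy p1 p2 p3 (by subst ha; simp) (by subst hb; simp) (by subst hc; simp)
  · exact key x y (fun v => -z v) hx hy (pair_neg_right p1) (pair_neg_right p2)
      (triple_neg_right p3) (by subst ha; simp) (by subst hb; simp) (by subst hc; simp)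
  · exact key x (fun v => -y v) z hx hy' p1 (pair_neg_left p2) (triple_neg_mid p3)
      (by subst ha; simp) (by subst hb; simp) (by subst hc; simp)
  · exact key x (fun v => -y v) (fun v => -z v) hx hy' (pair_neg_right p1)
      (pair_neg_right (pair_neg_left p2)) (triple_neg_right (triple_neg_mid p3))
      (by subst ha; simp) (by subst hb; simp) (by subst hc; simp)
  · exact key (fun v => -x v) y z hx' hy (pair_neg_left p1) p2 (triple_neg_left p3)
      (by subst ha; simp) (by subst hb; simp) (by subst hc; simp)
  · exact key (fun v => -x v) y (fun v => -z v) hx' hy (pair_neg_right (pair_neg_left p1))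
      (pair_neg_right p2) (triple_neg_right (triple_neg_left p3))
      (by subst ha; simp) (by subst hb; simp) (by subst hc; simp)
  · exact key (fun v => -x v) (fun v => -y v) z hx' hy' (pair_neg_left p1) (pair_neg_left p2)
      (triple_neg_left (triple_neg_mid p3)) (by subst ha; simp) (by subst hb; simp)
      (by subst hc; simp)
  · exact key (fun v => -x v) (fun v => -y v) (fun v => -z v) hx' hy'
      (pair_neg_right (pair_neg_left p1)) (pair_neg_right (pair_neg_left p2))
      (triple_neg_right (triple_neg_left (triple_neg_mid p3))) (by subst ha; simp)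
      (by subst hb; simp) (by subst hc; simp)

end Pool.Agent.Results.MP_753a9c_nt.SignPatternsThreeCurves
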