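import Pool.Agent.R385.TL.Mom
import Pool.Agent.W353.FB.Defs

/-!
# The generalized Sato–Tate conjecture for abelian varieties over `ℚ` and the frequency of large values

`A` is an abelian variety over `ℚ` of dimension `g`, given as a projective variety by homogeneous
equations with integer coefficients, `S` a finite set of primes which contains the primes of bad
reduction, and `a p = a_i(A)(p)` for the primes `p ∉ S`: the coefficient of `T^i` in the normalized Euler
factor, a real number in `I_i = [-B, B]`, `B = binom(2g, i)`.  For `m ≥ 1` let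
`U_m(t) = ∑ (B^m + a_p^m) cos(t log p) / p`, over the primes `p ∉ S`.

`RareF κ U`: for some `c > 0` and all large `V`, the set where `U ≥ V` has, in every interval of length
at least `T₀(V)`, a proportion at most `exp(-exp(c exp(V / κ)))`.  `FreqF κ U`: the proportion is at
least this, for some `c > 0`.  `TailExponent κ U`: `RareF κ' U` for all `κ' > κ`, and `FreqF κ' U` for all
`κ' < κ`.
-/

set_option autoImplicit false

namespace Pool.Agent.Results.MP_753a9c_nt.TailExponents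

open MeasureTheory Filter Topology Polynomial
open Pool.Agent.R385.TL
open Pool.Agent.W353.FB (cone)

/-- `L_p(A, T) = ∏ (1 - α_j T)`: the `α_j` have absolute value `√p`, and for all `n` and all fields with
`p^n` elements the number of the points of `A` is `∏ (1 - α_j^n)`. -/
def IsEulerFactor {l : ℕ} (A : Set (MvPolynomial (Fin l) ℤ)) (g p : ℕ) (α : Fin (2 * g) → ℂ) :
    Prop :=
  (∀ j, ‖α j‖ = Real.sqrt p) ∧
  ∀ (κ : Type) [Field κ] [Finite κ] (n : ℕ), Nat.card κ = p ^ n →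
    (cone A (Int.castRingHom κ) : ℂ) = ((p : ℂ) ^ n - 1) * ∏ j, (1 - α j ^ n)

/-- The coefficient of `T^i` in `L_p(A, T / √p)`. -/
noncomputable def coefficient {g : ℕ} (i p : ℕ) (α : Fin (2 * g) → ℂ) : ℂ :=
  (∏ j, (1 - C (α j / (Real.sqrt p : ℂ)) * X)).coeff i

/-- `a p = a_i(A)(p)` for the primes `p ∉ S`. -/
def IsSequence {l : ℕ} (A : Set (MvPolynomial (Fin l) ℤ)) (g i : ℕ) (S : Finset ℕ) (a : ℕ → ℝ) :
    Prop :=
  ∀ p : ℕ, p.Prime → p ∉ S → ∃ α : Fin (2 * g) → ℂ, IsEulerFactor A g p α ∧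
    (a p : ℂ) = coefficient i p α

/-- The `a p`, `p ∉ S`, are equidistributed with respect to `ν`. -/
def Equidistributed (S : Finset ℕ) (a : ℕ → ℝ) (ν : Measure ℝ) : Prop :=
  ∀ f : ℝ → ℝ, Continuous f → Tendsto (averageQ S fun p => f (a p)) atTop (𝓝 (∫ y, f y ∂ν))

/-- The same for the logarithmic averages: `∑_{p ≤ X} f(a_p) / p` divided by `log log X` tends to the
integral of `f`. -/
def LogEquidistributed (S : Finset ℕ) (a : ℕ → ℝ) (ν : Measure ℝ) : Prop :=
  ∀ f : ℝ → ℝ, Continuous f → Tendsto (fun X : ℕ => primeSumQ S (fun p => f (a p)) X /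
    Real.log (Real.log X)) atTop (𝓝 (∫ y, f y ∂ν))

/-- For all `m ≥ 1` the tail exponent of `U_m` is `B^m` plus the `m`-th moment of `ν`. -/
def MomentTails (B : ℝ) (S : Finset ℕ) (a : ℕ → ℝ) (ν : Measure ℝ) : Prop :=
  ∀ m : ℕ, 0 < m → TailExponent (B ^ m + ∫ y, y ^ m ∂ν) (cosSeriesQ S fun p => B ^ m + a p ^ m)

lemma coefficient_le {g i p : ℕ} (hp : p.Prime) {α : Fin (2 * g) → ℂ}
    (hα : ∀ j, ‖α j‖ = Real.sqrt p) : ‖coefficient i p α‖ ≤ (2 * g).choose i := by
  classical
  have hp0 : (0 : ℝ) < Real.sqrt p := Real.sqrt_pos.2 (by exact_mod_cast hp.pos)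
  have h1 : ∀ j, ‖-(α j / (Real.sqrt p : ℂ))‖ = 1 := fun j => by
    rw [norm_neg, norm_div, hα, Complex.norm_real, Real.norm_of_nonneg hp0.le, div_self hp0.ne']
  unfold coefficient
  have h2 : ∏ j, (1 - C (α j / (Real.sqrt p : ℂ)) * X) =
      ∏ j, (1 + C (-(α j / (Real.sqrt p : ℂ))) * X) := by
    refine Finset.prod_congr rfl fun j _ => ?_
    rw [C_neg]
    ring
  rw [h2, Finset.prod_one_add, finsetSum_coeff]
  have h3 : ∀ s ∈ (Finset.univ : Finset (Fin (2 * g))).powerset,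
      ‖(∏ j ∈ s, (C (-(α j / (Real.sqrt p : ℂ))) * X)).coeff i‖ ≤ if s.card = i then 1 else 0 := by
    intro s _
    rw [Finset.prod_mul_distrib, Finset.prod_const, ← map_prod, coeff_C_mul, coeff_X_pow]
    by_cases h : s.card = i
    · rw [if_pos h, if_pos h.symm, mul_one, norm_prod]
      simp only [h1, Finset.prod_const_one, le_refl]
    · rw [if_neg h, if_neg (fun h' => h h'.symm), mul_zero, norm_zero]
  refine (norm_sum_le_of_le _ h3).trans (le_of_eq ?_)
  rw [← Finset.sum_filter, Finset.sum_const, nsmul_eq_mul, mul_one]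
  have h4 : (Finset.univ : Finset (Fin (2 * g))).powerset.filter (fun s => s.card = i) =
      Finset.powersetCard i Finset.univ := by
    ext s
    simp [Finset.mem_powersetCard]
  rw [h4, Finset.card_powersetCard, Finset.card_univ, Fintype.card_fin]

theorem result (l g i : ℕ) (A : Set (MvPolynomial (Fin l) ℤ)) (S : Finset ℕ) (a : ℕ → ℝ)
    (ha : IsSequence A g i S a) (B : ℝ) (hB : B = (2 * g).choose i)
    (ν : Measure ℝ) [IsProbabilityMeasure ν] (hν : ∀ᵐ y ∂ν, y ∈ Set.Icc (-B) B) :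
    (∀ p : ℕ, p.Prime → p ∉ S → |a p| ≤ B) ∧
    (∀ m : ℕ,
      (∀ᵐ t : ℝ, Tendsto (fun X : ℕ => cosSumQ S (fun p => B ^ m + a p ^ m) X t) atTop
        (𝓝 (cosSeriesQ S (fun p => B ^ m + a p ^ m) t))) ∧
      ∀ r : ℝ, 0 < B ^ m + r →
        (RareF (B ^ m + r) (cosSeriesQ S fun p => B ^ m + a p ^ m) ↔ ∃ C : ℝ, ∀ X : ℕ, 3 ≤ X →
          primeSumQ S (fun p => a p ^ m) X ≤ r * Real.log (Real.log X) + C) ∧
        (FreqF (B ^ m + r) (cosSeriesQ S fun p => B ^ m + a p ^ m) ↔ ∃ C : ℝ, ∀ X : ℕ, 3 ≤ X →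
          r * Real.log (Real.log X) - C ≤ primeSumQ S (fun p => a p ^ m) X)) ∧
    (LogEquidistributed S a ν ↔ MomentTails B S a ν) ∧
    (Equidistributed S a ν ↔
      (∀ m : ℕ, 0 < m → ∃ ρ : ℝ, Tendsto (averageQ S fun p => a p ^ m) atTop (𝓝 ρ)) ∧
      MomentTails B S a ν) := by
  have hB0 : 0 ≤ B := by rw [hB]; positivity
  have h1 : BdQ S a B := by
    intro p hp hS
    obtain ⟨α, h2, h3⟩ := ha p hp hS
    have h4 := coefficient_le (i := i) hp h2.1
    rw [← h3, Complex.norm_real, Real.norm_eq_abs] at h4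
    rw [hB]
    exact h4
  have h2 : ∀ m : ℕ, BdQ S (fun p => a p ^ m) (B ^ m) := fun m p hp hS => by
    rw [abs_pow]
    exact pow_le_pow_left₀ (abs_nonneg _) (h1 p hp hS) m
  refine ⟨h1, fun m => ⟨?_, fun r hr => signed_iffQ (h2 m) (by positivity) hr⟩,
    moments h1 hB0 ν hν⟩
  have h3 : BdQ S (fun p => B ^ m + a p ^ m) (2 * B ^ m) := fun p hp hS => by
    have h4 := abs_le.1 (h2 m p hp hS)
    rw [abs_le]
    constructor <;> linarith [pow_nonneg hB0 m]
  filter_upwards [cosSeriesQ_ae (by positivity) h3] with t ht using ht.2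

end Pool.Agent.Results.MP_753a9c_nt.TailExponents
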